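import Pool.Agent.Helper69.UX.StE

set_option autoImplicit false

namespace Pool.Agent.Helper76.UX

open Finset Filter Pool.Agent.Helper82.CN Pool.Agent.Helper11.PV Pool.Agent.Helper69.VX Pool.Agent.Helper69.UX

private lemma esm_fac (k : ℕ) (hk : 1 ≤ k) :
    (k.factorial : ℝ) * Real.exp k ≤ Real.exp 1 * k * (k : ℝ) ^ k := by
  induction k, hk using Nat.le_induction with
  | base => simp
  | succ k hk ih =>
    have hk0 : (0:ℝ) < k := by exact_mod_cast hk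
    have hE : 0 < Real.exp (1 / ((k:ℝ) + 1)) := Real.exp_pos _
    have h1 : Real.exp (1 / ((k:ℝ) + 1)) * k ≤ (k:ℝ) + 1 := by
      have h2 := Real.add_one_le_exp (-(1 / ((k:ℝ) + 1)))
      rw [Real.exp_neg] at h2
      have h4 : -(1 / ((k:ℝ) + 1)) + 1 = (k:ℝ) / (k + 1) := by field_simp; ring
      rw [h4, div_le_iff₀ (by positivity)] at h2
      calc Real.exp (1 / ((k:ℝ) + 1)) * k ≤
          Real.exp (1 / ((k:ℝ) + 1)) * ((Real.exp (1 / ((k:ℝ) + 1)))⁻¹ * (k + 1)) :=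
            mul_le_mul_of_nonneg_left h2 hE.le
        _ = (k:ℝ) + 1 := by field_simp
    have h5 : Real.exp 1 * (k:ℝ) ^ (k + 1) ≤ ((k:ℝ) + 1) ^ (k + 1) := by
      have h6 : Real.exp 1 = Real.exp (1 / ((k:ℝ) + 1)) ^ (k + 1) := by
        rw [← Real.exp_nat_mul]
        congr 1
        push_cast
        field_simp
      rw [h6, ← mul_pow]
      exact pow_le_pow_left₀ (by positivity) h1 _
    have h7 : (((k + 1).factorial : ℕ) : ℝ) = ((k:ℝ) + 1) * k.factorial := by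
      rw [Nat.factorial_succ]; push_cast; ring
    have h8 : Real.exp ((k + 1 : ℕ) : ℝ) = Real.exp k * Real.exp 1 := by
      rw [← Real.exp_add]; push_cast; ring_nf
    rw [h7, h8]
    push_cast
    calc ((k:ℝ) + 1) * k.factorial * (Real.exp k * Real.exp 1)
        = ((k:ℝ) + 1) * Real.exp 1 * (k.factorial * Real.exp k) := by ring
      _ ≤ ((k:ℝ) + 1) * Real.exp 1 * (Real.exp 1 * k * (k : ℝ) ^ k) :=
          mul_le_mul_of_nonneg_left ih (by positivity)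
      _ = ((k:ℝ) + 1) * Real.exp 1 * (Real.exp 1 * (k:ℝ) ^ (k + 1)) := by ring
      _ ≤ ((k:ℝ) + 1) * Real.exp 1 * ((k:ℝ) + 1) ^ (k + 1) :=
          mul_le_mul_of_nonneg_left h5 (by positivity)
      _ = _ := by ring

private lemma esm_fac2 (n k : ℕ) (hn : 1 ≤ n) (hk : k ≤ n) :
    (k.factorial : ℝ) * Real.exp k ≤ Real.exp 1 * n * (k : ℝ) ^ k := by
  have hn1 : (1:ℝ) ≤ n := by exact_mod_cast hn
  have he : (1:ℝ) ≤ Real.exp 1 := Real.one_le_exp zero_le_one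
  rcases Nat.eq_zero_or_pos k with h | h
  · subst h
    simp only [Nat.factorial_zero, Nat.cast_one, Nat.cast_zero, Real.exp_zero, pow_zero, mul_one]
    nlinarith
  · refine (esm_fac k h).trans ?_
    have hkn : (k:ℝ) ≤ n := by exact_mod_cast hk
    gcongr

private lemma esm_cnt (n T : ℕ) (k : ℕ → ℕ) (E : ℝ) (hE : 0 ≤ E) (hn : 1 ≤ n)
    (hk : ∀ u ∈ range (T + 1), k u ≤ n)
    (h : (n.factorial : ℝ) ≤ E * ∏ u ∈ range (T + 1),
      ((u.factorial : ℝ) ^ k u * ((k u).factorial : ℝ))) :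
    (n.factorial : ℝ) * Real.exp (∑ u ∈ range (T + 1), (k u : ℝ)) ≤
      E * (Real.exp 1 * n) ^ (T + 1) *
        ∏ u ∈ range (T + 1), ((u.factorial : ℝ) * (k u : ℝ)) ^ k u := by
  have h1 : (∏ u ∈ range (T + 1), ((u.factorial : ℝ) ^ k u * ((k u).factorial : ℝ))) *
      Real.exp (∑ u ∈ range (T + 1), (k u : ℝ)) ≤ (Real.exp 1 * n) ^ (T + 1) *
        ∏ u ∈ range (T + 1), ((u.factorial : ℝ) * (k u : ℝ)) ^ k u := by
    rw [Real.exp_sum, ← Finset.prod_mul_distrib]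
    have h2 : (Real.exp 1 * (n:ℝ)) ^ (T + 1) = ∏ u ∈ range (T + 1), (Real.exp 1 * (n:ℝ)) := by
      rw [Finset.prod_const, card_range]
    rw [h2, ← Finset.prod_mul_distrib]
    refine Finset.prod_le_prod (fun u _ => by positivity) (fun u hu => ?_)
    have h3 := esm_fac2 n (k u) hn (hk u hu)
    calc (u.factorial : ℝ) ^ k u * ((k u).factorial : ℝ) * Real.exp (k u)
        = (u.factorial : ℝ) ^ k u * (((k u).factorial : ℝ) * Real.exp (k u)) := by ring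
      _ ≤ (u.factorial : ℝ) ^ k u * (Real.exp 1 * n * (k u : ℝ) ^ k u) :=
          mul_le_mul_of_nonneg_left h3 (by positivity)
      _ = _ := by rw [mul_pow]; ring
  calc (n.factorial : ℝ) * Real.exp (∑ u ∈ range (T + 1), (k u : ℝ))
      ≤ (E * ∏ u ∈ range (T + 1), ((u.factorial : ℝ) ^ k u * ((k u).factorial : ℝ))) *
        Real.exp (∑ u ∈ range (T + 1), (k u : ℝ)) :=
          mul_le_mul_of_nonneg_right h (Real.exp_pos _).le
    _ = E * ((∏ u ∈ range (T + 1), ((u.factorial : ℝ) ^ k u * ((k u).factorial : ℝ))) *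
        Real.exp (∑ u ∈ range (T + 1), (k u : ℝ))) := by ring
    _ ≤ E * ((Real.exp 1 * n) ^ (T + 1) *
        ∏ u ∈ range (T + 1), ((u.factorial : ℝ) * (k u : ℝ)) ^ k u) :=
          mul_le_mul_of_nonneg_left h1 hE
    _ = _ := by ring

private lemma esm_pw (n T : ℕ) (k : ℕ → ℕ) (Q : Finset (Finset (Fin n)))
    (hQ : ∀ A ∈ Q, A.card ≤ T) (hk : ∀ u, (Q.filter (fun A => A.card = u)).card = k u) :
    pw (gf (fun u => (k u : ℝ))) Q =
      ∏ u ∈ range (T + 1), ((u.factorial : ℝ) * (k u : ℝ)) ^ k u := by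
  unfold pw
  rw [← Finset.prod_fiberwise_of_maps_to (s := Q) (t := range (T + 1)) (g := fun A => A.card)
    (fun A hA => by simpa [Nat.lt_succ_iff] using hQ A hA)]
  refine Finset.prod_congr rfl (fun u _ => ?_)
  rw [← hk u, ← Finset.prod_const]
  refine Finset.prod_congr rfl (fun A hA => ?_)
  rw [(Finset.mem_filter.1 hA).2]
  simp only [gf, hk u]

private lemma esm_split {ι : Type} (E : Finset ι) (f : ι → ℝ) (c0 c1 c2 c3 : ι → Prop)
    [DecidablePred c0] [DecidablePred c1] [DecidablePred c2] [DecidablePred c3]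
    (hf : ∀ Q ∈ E, 0 ≤ f Q) (hc : ∀ Q ∈ E, c0 Q ∨ c1 Q ∨ c2 Q ∨ c3 Q) :
    ∑ Q ∈ E, f Q ≤ ∑ Q ∈ E.filter c0, f Q + ∑ Q ∈ E.filter c1, f Q +
      ∑ Q ∈ E.filter c2, f Q + ∑ Q ∈ E.filter c3, f Q := by
  simp only [Finset.sum_filter, ← Finset.sum_add_distrib]
  refine Finset.sum_le_sum (fun Q hQ => ?_)
  have h0 : 0 ≤ (if c0 Q then f Q else 0) := by split_ifs <;> simp [hf Q hQ]
  have h1 : 0 ≤ (if c1 Q then f Q else 0) := by split_ifs <;> simp [hf Q hQ]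
  have h2 : 0 ≤ (if c2 Q then f Q else 0) := by split_ifs <;> simp [hf Q hQ]
  have h3 : 0 ≤ (if c3 Q then f Q else 0) := by split_ifs <;> simp [hf Q hQ]
  rcases hc Q hQ with h | h | h | h
  · rw [if_pos h]; linarith
  · rw [if_pos h] at h1 ⊢; linarith
  · rw [if_pos h] at h2 ⊢; linarith
  · rw [if_pos h] at h3 ⊢; linarith

/-- comparison of a sum over `E` with a weighted sum over a bigger set -/
private lemma esm_cmp {ι : Type} (E F : Finset ι) (f g : ι → ℝ) (W B : ℝ) (hW : 0 < W)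
    (hEF : E ⊆ F) (hg : ∀ Q ∈ F, 0 ≤ g Q) (hfg : ∀ Q ∈ E, W * f Q ≤ g Q)
    (hB : ∑ Q ∈ F, g Q ≤ W * B) : ∑ Q ∈ E, f Q ≤ B := by
  have h1 : W * ∑ Q ∈ E, f Q ≤ W * B := by
    rw [Finset.mul_sum]
    refine le_trans (Finset.sum_le_sum hfg) (le_trans ?_ hB)
    exact Finset.sum_le_sum_of_subset_of_nonneg hEF (fun Q hQ _ => hg Q hQ)
  exact le_of_mul_le_mul_left h1 hW


private lemma esm_num (ε th : ℝ) (n T : ℕ) (h1 : 1 / 2 ≤ th) (h2 : th ≤ 1 - 12 * ε) (hε : 0 < ε)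
    (hn : 1 ≤ n) (hT : 1 ≤ T) (hz : 16 ≤ (n : ℝ) ^ (ε / 8)) (hTz : (T : ℝ) ≤ (n : ℝ) ^ (ε / 8))
    (hl : 1 + Real.log n ≤ (n : ℝ) ^ (ε / 8)) :
    (Real.exp 1 * n) ^ (T + 1) + 3 ≤ Real.exp ((n : ℝ) ^ (3 * ε)) ∧
    (Real.exp 1 * n) ^ (T + 1) * Real.exp (2 * (n : ℝ) ^ (1 - th + ε / 8) -
      (n : ℝ) ^ (1 - th + ε)) ≤ 1 ∧
    ((n : ℝ) + 1) * Real.exp (2 * (n : ℝ) ^ (1 - th + ε / 8)) ≤
      Real.exp ((n : ℝ) ^ (th + 3 * ε) / 2) ∧
    ∀ N : ℕ, (N : ℝ) ≤ (n : ℝ) ^ (1 / 2 + ε) → ((n : ℝ) + 1) ^ (3 * N) *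
      Real.exp (2 * (n : ℝ) ^ (1 - th + ε / 8)) ≤ Real.exp ((n : ℝ) ^ (th + 3 * ε) / 2) := by
  have hn1 : (1:ℝ) ≤ n := by exact_mod_cast hn
  have hn0 : (0:ℝ) < n := by linarith
  have hT1 : (1:ℝ) ≤ T := by exact_mod_cast hT
  have hl0 : 0 ≤ Real.log n := Real.log_nonneg hn1
  have hpz : ∀ j : ℕ, ((n : ℝ) ^ (ε / 8)) ^ j = (n : ℝ) ^ (ε * j / 8) := by
    intro j
    rw [← Real.rpow_natCast, ← Real.rpow_mul hn0.le]
    congr 1; ring
  have e8 : ∀ x : ℝ, (n : ℝ) ^ (x + ε) = (n : ℝ) ^ x * ((n : ℝ) ^ (ε / 8)) ^ 8 := by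
    intro x
    rw [hpz, ← Real.rpow_add hn0]
    congr 1; push_cast; ring
  have e1 : ∀ x : ℝ, (n : ℝ) ^ (x + ε / 8) = (n : ℝ) ^ x * (n : ℝ) ^ (ε / 8) := by
    intro x
    rw [← Real.rpow_add hn0]
  have e24 : ∀ x : ℝ, (n : ℝ) ^ (x + 3 * ε) = (n : ℝ) ^ x * ((n : ℝ) ^ (ε / 8)) ^ 24 := by
    intro x
    rw [hpz, ← Real.rpow_add hn0]
    congr 1; push_cast; ring
  have e24' : (n : ℝ) ^ (3 * ε) = ((n : ℝ) ^ (ε / 8)) ^ 24 := by
    rw [hpz]
    congr 1; push_cast; ring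
  have hY1 : 1 ≤ (n : ℝ) ^ (1 - th) := Real.one_le_rpow hn1 (by linarith)
  have hYW : (n : ℝ) ^ (1 - th) ≤ (n : ℝ) ^ th := Real.rpow_le_rpow_of_exponent_le hn1 (by linarith)
  have hHW : (n : ℝ) ^ ((1:ℝ) / 2) ≤ (n : ℝ) ^ th := Real.rpow_le_rpow_of_exponent_le hn1 h1
  have hle : Real.exp 1 * n = Real.exp (1 + Real.log n) := by
    rw [Real.exp_add, Real.exp_log hn0]
  have hpw : (Real.exp 1 * (n:ℝ)) ^ (T + 1) = Real.exp (((T:ℝ) + 1) * (1 + Real.log n)) := by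
    rw [hle, ← Real.exp_nat_mul]; push_cast; rfl
  have hn2 : (n : ℝ) + 1 ≤ Real.exp (1 + Real.log n) := by
    rw [← hle]
    have := Real.add_one_le_exp (1:ℝ)
    nlinarith
  rw [e24', e1, e8, e24, e8, hpw]
  set z := (n : ℝ) ^ (ε / 8) with hzdef
  set Y := (n : ℝ) ^ (1 - th) with hYdef
  set W := (n : ℝ) ^ th with hWdef
  set l := Real.log n with hldef
  have hz0 : (0:ℝ) < z := by linarith
  have hTl : ((T:ℝ) + 1) * (1 + l) ≤ 2 * z ^ 2 := by
    have : ((T:ℝ) + 1) * (1 + l) ≤ (2 * z) * z := by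
      apply mul_le_mul _ hl (by linarith) (by linarith)
      linarith
    nlinarith
  have hz3 : 4 * z ^ 2 ≤ z ^ 3 := by nlinarith [sq_nonneg z]
  have hz24 : z ^ 3 ≤ z ^ 24 := pow_le_pow_right₀ (by linarith) (by norm_num)
  have hz8 : z ^ 3 ≤ z ^ 8 := pow_le_pow_right₀ (by linarith) (by norm_num)
  have hW1 : 1 ≤ W := hY1.trans hYW
  refine ⟨?_, ?_, ?_, ?_⟩
  · have h3 : 1 ≤ Real.exp (((T:ℝ) + 1) * (1 + l)) := Real.one_le_exp (by positivity)
    have h4 : (4:ℝ) ≤ Real.exp 3 := by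
      have := Real.add_one_le_exp (3:ℝ); linarith
    calc Real.exp (((T:ℝ) + 1) * (1 + l)) + 3 ≤ Real.exp (((T:ℝ) + 1) * (1 + l)) * 4 := by linarith
      _ ≤ Real.exp (((T:ℝ) + 1) * (1 + l)) * Real.exp 3 := by gcongr
      _ = Real.exp (((T:ℝ) + 1) * (1 + l) + 3) := by rw [Real.exp_add]
      _ ≤ Real.exp (z ^ 24) := by
          apply Real.exp_le_exp.2
          nlinarith
  · rw [← Real.exp_add]
    rw [Real.exp_le_one_iff]
    have h3 : 2 * z ^ 2 + 2 * (Y * z) ≤ Y * z ^ 3 := by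
      have h4 : 2 * z ^ 2 ≤ 2 * (Y * z ^ 2) := by nlinarith [sq_nonneg z]
      have h5 : 2 * (Y * z) ≤ 2 * (Y * z ^ 2) := by
        have : Y * z ≤ Y * z ^ 2 := by
          apply mul_le_mul_of_nonneg_left _ (by linarith)
          nlinarith
        linarith
      have h6 : Y * (4 * z ^ 2) ≤ Y * z ^ 3 := mul_le_mul_of_nonneg_left hz3 (by linarith)
      linarith
    have h7 : Y * z ^ 3 ≤ Y * z ^ 8 := mul_le_mul_of_nonneg_left hz8 (by linarith)
    linarith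
  · have h3 : l + 1 + 2 * (Y * z) ≤ W * z ^ 24 / 2 := by
      have h4 : l + 1 ≤ W * z := by nlinarith
      have h5 : Y * z ≤ W * z := mul_le_mul_of_nonneg_right hYW hz0.le
      have h6 : W * (3 * z) ≤ W * (z ^ 3 / 2) := by
        apply mul_le_mul_of_nonneg_left _ (by linarith)
        nlinarith [sq_nonneg z]
      have h7 : W * z ^ 3 ≤ W * z ^ 24 := mul_le_mul_of_nonneg_left hz24 (by linarith)
      linarith
    calc ((n : ℝ) + 1) * Real.exp (2 * (Y * z)) ≤ Real.exp (1 + l) * Real.exp (2 * (Y * z)) := by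
          gcongr
      _ = Real.exp (l + 1 + 2 * (Y * z)) := by rw [← Real.exp_add]; ring_nf
      _ ≤ _ := Real.exp_le_exp.2 h3
  · intro N hN
    have hNW : (N:ℝ) ≤ W * z ^ 8 := hN.trans (mul_le_mul_of_nonneg_right hHW (by positivity))
    have h3 : (3 * (N:ℝ)) * (1 + l) + 2 * (Y * z) ≤ W * z ^ 24 / 2 := by
      have h4 : (N:ℝ) * (1 + l) ≤ (W * z ^ 8) * z :=
        mul_le_mul hNW hl (by linarith) (by positivity)
      have h5 : Y * z ≤ W * z := mul_le_mul_of_nonneg_right hYW hz0.le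
      have h8 : W * z ≤ W * z ^ 9 := by
        apply mul_le_mul_of_nonneg_left _ (by linarith)
        exact le_self_pow₀ (by linarith) (by norm_num)
      have h6 : W * (10 * z ^ 9) ≤ W * z ^ 10 := by
        apply mul_le_mul_of_nonneg_left _ (by linarith)
        have : z ^ 10 = z * z ^ 9 := by ring
        rw [this]
        apply mul_le_mul_of_nonneg_right (by linarith) (by positivity)
      have h7 : W * z ^ 10 ≤ W * z ^ 24 :=
        mul_le_mul_of_nonneg_left (pow_le_pow_right₀ (by linarith) (by norm_num)) (by linarith)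
      have h9 : (W * z ^ 8) * z = W * z ^ 9 := by ring
      rw [h9] at h4
      linarith
    calc ((n : ℝ) + 1) ^ (3 * N) * Real.exp (2 * (Y * z))
        ≤ Real.exp (1 + l) ^ (3 * N) * Real.exp (2 * (Y * z)) := by gcongr
      _ = Real.exp ((3 * (N:ℝ)) * (1 + l) + 2 * (Y * z)) := by
          rw [← Real.exp_nat_mul, ← Real.exp_add]; push_cast; rfl
      _ ≤ _ := Real.exp_le_exp.2 h3


private lemma esm_K (p ε C δ : ℝ) (n T : ℕ) (th : ℝ) (κ : ℕ → ℝ) (lam mu : ℝ) (hp1 : p < 1)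
    (hpar : Par p ε C δ n T th κ lam mu) (hth : 0 ≤ th) (hT : 3 * (2 / bb p + δ) ≤ T) :
    0 ≤ KK T κ ∧ KK T κ * T ≤ 3 / 2 * n := by
  have hκ : ∀ u, 0 ≤ κ u := by
    intro u
    by_cases h : u = 0 ∨ T < u
    · rw [hpar.zer u h]
    · push Not at h
      rw [hpar.eq u (Nat.one_le_iff_ne_zero.2 h.1) h.2]
      have : 0 ≤ om p u := by
        unfold om
        have : 0 ≤ 1 - p := by linarith
        positivity
      positivity
  have hK : 0 ≤ KK T κ := Finset.sum_nonneg (fun u _ => hκ u)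
  refine ⟨hK, ?_⟩
  have h1 : ∑ u ∈ range (T + 1), ((T : ℝ) - u) * κ u = T * KK T κ - n := by
    rw [← hpar.sum]
    unfold KK
    rw [Finset.mul_sum, ← Finset.sum_sub_distrib]
    exact Finset.sum_congr rfl (fun u _ => by ring)
  have h2 := hpar.mean
  rw [h1] at h2
  have h3 := (abs_le.1 h2).2
  have h4 : (2 / bb p - th + δ) * KK T κ ≤ (T / 3) * KK T κ := by
    apply mul_le_mul_of_nonneg_right _ hK
    linarith
  nlinarith

private lemma esm_big (ε : ℝ) (T : ℕ) (hε : 0 < ε) (hε1 : ε ≤ 1 / 24) (hT : 4 ≤ T) :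
    RR ε T < T ∧ T ≤ 2 * RR ε T := by
  unfold RR
  have hT1 : (4:ℝ) ≤ T := by exact_mod_cast hT
  constructor
  · have h1 := Nat.ceil_lt_add_one (a := (1 / 2 + ε / 2) * (T:ℝ)) (by positivity)
    have h2 : (⌈(1 / 2 + ε / 2) * (T:ℝ)⌉₊ : ℝ) < T := by nlinarith
    exact_mod_cast h2
  · have h1 := Nat.le_ceil ((1 / 2 + ε / 2) * (T:ℝ))
    have h2 : (T:ℝ) ≤ 2 * (⌈(1 / 2 + ε / 2) * (T:ℝ)⌉₊ : ℝ) := by nlinarith
    exact_mod_cast h2

private lemma esm_nz (ε : ℝ) (hε : 0 < ε) (hε1 : ε ≤ 1 / 24) : ∃ n0 : ℕ, ∀ n : ℕ, n0 ≤ n →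
    1 ≤ n ∧ 16 ≤ (n : ℝ) ^ (ε / 8) ∧ 1 + Real.log n ≤ (n : ℝ) ^ (ε / 8) := by
  have h1 : Tendsto (fun n : ℕ => (n : ℝ) ^ (ε / 16)) atTop atTop :=
    (tendsto_rpow_atTop (by positivity)).comp tendsto_natCast_atTop_atTop
  obtain ⟨n1, hn1⟩ := Filter.eventually_atTop.1 (h1.eventually_ge_atTop (1 + 16 / ε))
  refine ⟨n1 + 1, fun n hn => ?_⟩
  have h2 := hn1 n (by omega)
  have hn0 : 1 ≤ n := by omega
  have hn' : (1:ℝ) ≤ n := by exact_mod_cast hn0
  have h3 : (n : ℝ) ^ (ε / 8) = (n : ℝ) ^ (ε / 16) * (n : ℝ) ^ (ε / 16) := by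
    rw [← Real.rpow_add (by linarith)]
    congr 1; ring
  have h4 := Real.log_le_rpow_div (x := (n:ℝ)) (ε := ε / 16) (by linarith) (by positivity)
  have h5 : 384 ≤ 16 / ε := by
    rw [le_div_iff₀ hε]; linarith
  set y := (n : ℝ) ^ (ε / 16)
  refine ⟨hn0, ?_, ?_⟩
  · rw [h3]; nlinarith
  · rw [h3]
    have h6 : y / (ε / 16) = (16 / ε) * y := by field_simp
    rw [h6] at h4
    nlinarith

open Classical in
theorem hESM : StEXP → StEXC → StMNO → StMID → StNI → StCRU → StSIZ → StMKS → StESM := by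
  intro hEXP hEXC hMNO hMID hNI hCRU hSIZ hMKS p ε C hp hp1 hε hε1 hC
  obtain ⟨C₁, hC₁, hEXP⟩ := hEXP p ε C hp hp1 hε hε1 hC
  obtain ⟨ε₀, hε₀, hε₀', nNI, hNI⟩ := hNI p ε C₁ hp hp1 hε hε1 hC₁
  obtain ⟨J, δ, hδ, nMID, hMID⟩ := hMID p ε C ε₀ hp hp1 hε hε1 hC hε₀ hε₀'
  obtain ⟨nE, hEXP⟩ := hEXP C₁ δ J le_rfl hδ
  obtain ⟨nMNO, hMNO⟩ := hMNO p ε hp hp1 hε hε1
  obtain ⟨nS, hSIZ⟩ := hSIZ p ε 1 ⌈3 * (2 / bb p + δ)⌉₊ hp hp1 hε hε1 one_pos
  obtain ⟨nM, hMKS⟩ := hMKS p ε hp hp1 hε hε1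
  obtain ⟨nz, hnz⟩ := esm_nz ε hε hε1
  refine ⟨δ, hδ, nNI + nMID + nE + nMNO + nS + nM + nz, ?_⟩
  intro n T th κ lam mu hn hwin hpar
  obtain ⟨hn1, hz16, hlz⟩ := hnz n (by omega)
  obtain ⟨hT4, hT8, hTn, hMk1, -, -, -⟩ := hMKS n T th (by omega) hwin
  have hsiz := hSIZ n T th (by omega) hwin
  obtain ⟨k, hk0, hkT, hksum, hgood, hkK, hfm⟩ := hEXP n T th κ lam mu (by omega) hwin hpar
  obtain ⟨hexc1, hexc2⟩ := hEXC n T k hk0 hkT hksum
  have hth1 : 1 / 2 ≤ th := hwin.2.1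
  have hth2 : th ≤ 1 - 12 * ε := hwin.2.2
  have hnr : (1:ℝ) ≤ n := by exact_mod_cast hn1
  have hn0 : (0:ℝ) < n := by linarith
  have hexp2 : 0 < 1 / Real.exp 2 := by positivity
  have hq0 : 0 < 1 - p := by linarith
  have hq1 : 1 - p ≤ 1 := by linarith
  have hTz : (T : ℝ) ≤ (n : ℝ) ^ (ε / 8) := by
    refine le_trans ?_ hT8
    have : (1:ℝ) ≤ T := by exact_mod_cast (by omega : 1 ≤ T)
    exact le_self_pow₀ this (by norm_num)
  obtain ⟨num1, num2, num3, num4⟩ := esm_num ε th n T hth1 hth2 hε hn1 (by omega) hz16 hTz hlz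
  obtain ⟨hRT, hTR⟩ := esm_big ε T hε hε1 hT4
  have hTbig : 3 * (2 / bb p + δ) ≤ T := by
    refine (Nat.le_ceil _).trans ?_
    exact_mod_cast (by have := hsiz.t4.1; omega :  ⌈3 * (2 / bb p + δ)⌉₊ ≤ T)
  obtain ⟨hK0, hKT⟩ := esm_K p ε C δ n T th κ lam mu (by linarith) hpar (by linarith) hTbig
  -- the number of classes
  have hku : ∀ u ∈ range (T + 1), k u ≤ u * k u := by
    intro u _
    rcases Nat.eq_zero_or_pos u with h | h
    · subst h; simp [hk0]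
    · exact Nat.le_mul_of_pos_left _ h
  have hks : ∑ u ∈ range (T + 1), k u ≤ n := by
    rw [← hksum]; exact Finset.sum_le_sum hku
  have hkn : ∀ u ∈ range (T + 1), k u ≤ n := fun u hu =>
    (Finset.single_le_sum (f := k) (fun _ _ => Nat.zero_le _) hu).trans hks
  have hks' : ∑ u ∈ range (T + 1), (k u : ℝ) ≤ n := by exact_mod_cast hks
  have hsT2 : ∑ v ∈ range (T + 2), (k v : ℝ) = ∑ u ∈ range (T + 1), (k u : ℝ) := by
    rw [Finset.sum_range_succ, hkT (T + 1) (by omega)]; simp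
  have hwt : Wt n T (fun u => (k u : ℝ)) := by
    refine ⟨fun v => Nat.cast_nonneg _, by simp [hk0], fun v hv => by simp [hkT v (by omega)],
      by simp [hkT (T + 1) (by omega)], ?_⟩
    rw [hsT2]; linarith
  -- the family
  have hE0 : 0 < ((Ex n k).card : ℝ) := by
    by_contra h
    have h1 : ((Ex n k).card : ℝ) = 0 := le_antisymm (not_lt.1 h) (Nat.cast_nonneg _)
    rw [h1, zero_mul] at hfm
    exact absurd hfm (not_le.2 (Real.exp_pos _))
  have hEne : (Ex n k).Nonempty := by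
    rw [← Finset.card_pos]; exact_mod_cast hE0
  have hEm : ∀ P ∈ Ex n k, P ∈ Pt (Fin n) ∧ ∀ u, (P.filter (fun A => A.card = u)).card = k u := by
    intro P hP
    simpa [Ex] using hP
  refine ⟨Ex n k, k T, ∑ u ∈ range (T + 1), k u, ∑ u ∈ range (T + 1), k u * u.choose 2, hEne,
    fun P hP => ⟨(hEm P hP).1, (hexc2 P hP).2.2, (hEm P hP).2 T, (hexc2 P hP).1, (hexc2 P hP).2.1⟩,
    hkK, ?_⟩
  intro P hP
  have hPt := (hEm P hP).1
  have hPT := (hexc2 P hP).2.2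
  have hPk := (hexc2 P hP).1
  set w : ℝ := 1 / (1 - p) with hw
  set I : ℕ := ∑ u ∈ range (T + 1), k u * u.choose 2 with hI
  set X : ℝ := (k T : ℝ) ^ 2 / Real.exp (hv p n T) with hX
  set E := Ex n k with hEdef
  set R := RR ε T with hR
  set η : ℝ := (k T : ℝ) / Mk p n T with hη
  have hX0 : 0 ≤ X := by positivity
  have hwq : (1 - p) * w = 1 := by rw [hw]; field_simp
  have hw0 : 0 < w := by rw [hw]; positivity
  have hw1 : 1 ≤ w := by rw [hw, le_div_iff₀ hq0]; linarith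
  have hMk0 : 0 < Mk p n T := lt_of_lt_of_le (Real.rpow_pos_of_pos hn0 _) hMk1
  have hkTn : (k T : ℝ) ≤ n := by exact_mod_cast hkn T (by simp)
  have hη0 : 0 ≤ η := by positivity
  have hη1 : η ≤ (n:ℝ) ^ (-th + ε / 8) := by
    rw [hη, div_le_iff₀ hMk0]
    calc (k T : ℝ) ≤ n := hkTn
      _ = (n:ℝ) ^ (-th + ε / 8) * (n:ℝ) ^ (1 + th - ε / 8) := by
          rw [← Real.rpow_add hn0]
          have : -th + ε / 8 + (1 + th - ε / 8) = 1 := by ring
          rw [this, Real.rpow_one]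
      _ ≤ _ := mul_le_mul_of_nonneg_left hMk1 (by positivity)
  have hη2 : η ≤ (n:ℝ) ^ (-th + ε) :=
    hη1.trans (Real.rpow_le_rpow_of_exponent_le hnr (by linarith))
  have hηn : η * n ≤ (n:ℝ) ^ (1 - th + ε / 8) := by
    calc η * n ≤ (n:ℝ) ^ (-th + ε / 8) * n := mul_le_mul_of_nonneg_right hη1 hn0.le
      _ = (n:ℝ) ^ (-th + ε / 8) * (n:ℝ) ^ (1:ℝ) := by rw [Real.rpow_one]
      _ = _ := by rw [← Real.rpow_add hn0]; congr 1; ring
  have hPn : P.card ≤ n := by rw [hPk]; exact hks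
  have hmn : ∀ Q, ((bigS R P Q).card : ℝ) ≤ n := fun Q => by
    exact_mod_cast (Finset.card_filter_le _ _).trans hPn
  have hcommon : ∀ Q, ((P ∩ Q).filter (fun A => A.card = T)).card ≤ (bigS R P Q).card := by
    intro Q
    apply Finset.card_le_card
    intro A hA
    simp only [Finset.mem_filter, Finset.mem_inter, bigS] at hA ⊢
    refine ⟨hA.1.1, ?_⟩
    have h1 : (A ∩ A).card ≤ mxb Q A := Finset.le_sup (f := fun B => (A ∩ B).card) hA.1.2
    rw [Finset.inter_self] at h1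
    omega
  set f : Finset (Finset (Fin n)) → ℝ := fun Q => w ^ ovl P Q *
    Real.exp (2 * η * ((P ∩ Q).filter (fun A => A.card = T)).card) with hf
  have hf0 : ∀ Q, 0 ≤ f Q := fun Q => by simp only [hf]; positivity
  have hf1 : ∀ Q, f Q ≤ w ^ ovl P Q * Real.exp (2 * η * (bigS R P Q).card) := by
    intro Q
    simp only [hf]
    have h1 : (((P ∩ Q).filter (fun A => A.card = T)).card : ℝ) ≤ (bigS R P Q).card := by
      exact_mod_cast hcommon Q
    gcongr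
  have hf2 : ∀ Q, f Q ≤ w ^ ovl P Q * Real.exp (2 * (n:ℝ) ^ (1 - th + ε / 8)) := by
    intro Q
    refine (hf1 Q).trans (mul_le_mul_of_nonneg_left (Real.exp_le_exp.2 ?_) (by positivity))
    have h1 : η * (bigS R P Q).card ≤ η * n := mul_le_mul_of_nonneg_left (hmn Q) hη0
    linarith
  set W₀ : ℝ := ∏ u ∈ range (T + 1), ((u.factorial : ℝ) * (k u : ℝ)) ^ k u with hW₀
  have hW0 : 0 < W₀ := by
    refine Finset.prod_pos (fun u _ => ?_)
    rcases Nat.eq_zero_or_pos (k u) with h | h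
    · rw [h]; simp
    · positivity
  have hcnt := esm_cnt n T k (E.card) hE0.le hn1 hkn hexc1
  rw [← hW₀] at hcnt
  have hpw : ∀ Q ∈ E, pw (gf (fun u => (k u : ℝ))) Q = W₀ := fun Q hQ =>
    esm_pw n T k Q (hexc2 Q hQ).2.2 (hEm Q hQ).2
  have hpw0 : ∀ Q : Finset (Finset (Fin n)), 0 ≤ pw (gf (fun u => (k u : ℝ))) Q := by
    intro Q
    unfold pw gf
    exact Finset.prod_nonneg (fun A _ => by positivity)
  -- case 0
  have S0 : ∑ Q ∈ E.filter (fun Q => ((bigS R P Q).card : ℝ) ≤ (n : ℝ) ^ (1 - th + ε)), f Q ≤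
      E.card * ((Real.exp 1 * n) ^ (T + 1) * Real.exp (X + (n:ℝ) ^ (3 * ε))) := by
    refine esm_cmp _ ((Pt (Fin n)).filter
      (fun Q => ((bigS R P Q).card : ℝ) ≤ (n : ℝ) ^ (1 - th + ε))) f
      (fun Q => pw (gf (fun u => (k u : ℝ))) Q * w ^ ovl P Q *
        Real.exp (2 * η * (bigS R P Q).card)) W₀ _ hW0 ?_ ?_ ?_ ?_
    · exact Finset.filter_subset_filter _ (Finset.filter_subset _ _)
    · intro Q _
      have := hpw0 Q
      positivity
    · intro Q hQ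
      rw [hpw Q (Finset.mem_filter.1 hQ).1, mul_assoc]
      exact mul_le_mul_of_nonneg_left (hf1 Q) hW0.le
    · refine (hMNO n T (k T) th η (fun u => (k u : ℝ)) P (by omega) hwin hwt
        (by simp [hkT (T + 1) (by omega)]) hPt hPT ((hEm P hP).2 T) hη0 hη2).trans ?_
      rw [hsT2]
      have h1 : (k T : ℝ) * (k T : ℝ) / Real.exp (hv p n T) = X := by rw [hX]; ring
      rw [h1]
      have h2 : Real.exp (∑ u ∈ range (T + 1), (k u : ℝ) + X + (n : ℝ) ^ (3 * ε)) =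
        Real.exp (∑ u ∈ range (T + 1), (k u : ℝ)) * Real.exp (X + (n : ℝ) ^ (3 * ε)) := by
        rw [← Real.exp_add]; ring_nf
      rw [h2, ← mul_assoc]
      refine (mul_le_mul_of_nonneg_right hcnt (Real.exp_pos _).le).trans (le_of_eq ?_)
      ring
  -- case 1
  have S1 : ∑ Q ∈ E.filter (fun Q => (n : ℝ) ^ (1 - th + ε) ≤ (bigS R P Q).card ∧
      ((bigS R P Q).card : ℝ) ≤ (1 - ε₀) * P.card), f Q ≤ E.card := by
    have h0 : ∑ Q ∈ E.filter (fun Q => (n : ℝ) ^ (1 - th + ε) ≤ (bigS R P Q).card ∧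
      ((bigS R P Q).card : ℝ) ≤ (1 - ε₀) * P.card), f Q ≤ E.card * ((Real.exp 1 * n) ^ (T + 1) *
        Real.exp (2 * (n : ℝ) ^ (1 - th + ε / 8) - (n : ℝ) ^ (1 - th + ε))) := by
      refine esm_cmp _ ((Pt (Fin n)).filter
        (fun Q => (n : ℝ) ^ (1 - th + ε) ≤ (bigS R P Q).card ∧
          ((bigS R P Q).card : ℝ) ≤ (1 - ε₀) * P.card)) f
        (fun Q => pw (gf (fun u => (k u : ℝ))) Q * w ^ ovl P Q *
          Real.exp (2 * (n:ℝ) ^ (1 - th + ε / 8))) W₀ _ hW0 ?_ ?_ ?_ ?_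
      · exact Finset.filter_subset_filter _ (Finset.filter_subset _ _)
      · intro Q _
        have := hpw0 Q
        positivity
      · intro Q hQ
        rw [hpw Q (Finset.mem_filter.1 hQ).1, mul_assoc]
        exact mul_le_mul_of_nonneg_left (hf2 Q) hW0.le
      · rw [← Finset.sum_mul]
        refine (mul_le_mul_of_nonneg_right (hMID C₁ ((n:ℝ) ^ ε) ((n : ℝ) ^ (1 - th + ε)) n T th κ
          (fun u => (k u : ℝ)) lam mu P (by omega) hwin hpar (hgood P hP) (by positivity)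
          (Real.rpow_le_rpow_of_exponent_le hnr (by linarith)) hwt le_rfl)
          (Real.exp_pos _).le).trans ?_
        rw [hsT2]
        have h2 : Real.exp (∑ u ∈ range (T + 1), (k u : ℝ) - (n : ℝ) ^ (1 - th + ε)) *
            Real.exp (2 * (n:ℝ) ^ (1 - th + ε / 8)) =
          Real.exp (∑ u ∈ range (T + 1), (k u : ℝ)) *
            Real.exp (2 * (n : ℝ) ^ (1 - th + ε / 8) - (n : ℝ) ^ (1 - th + ε)) := by
          rw [← Real.exp_add, ← Real.exp_add]; ring_nf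
        rw [mul_assoc, h2, ← mul_assoc]
        refine (mul_le_mul_of_nonneg_right hcnt (Real.exp_pos _).le).trans (le_of_eq ?_)
        ring
    refine h0.trans ?_
    calc (E.card : ℝ) * _ ≤ E.card * 1 := mul_le_mul_of_nonneg_left num2 hE0.le
      _ = E.card := mul_one _
  have hqI : 0 < (1 - p) ^ I := by positivity
  set Z : ℝ := Real.exp (2 * (n:ℝ) ^ (1 - th + ε / 8)) with hZ
  have hZ0 : 0 < Z := Real.exp_pos _
  have hinn : ∀ Q ∈ E, inn Q = I := fun Q hQ => (hexc2 Q hQ).2.1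
  obtain ⟨-, -, hcru3⟩ := hCRU n T R 0 P hPt hPT hTR
  -- case 2
  have S2 : ∑ Q ∈ E.filter (fun Q => (1 - ε₀) * P.card < (bigS R P Q).card ∧
      (n : ℝ) ^ (1 / 2 + ε) ≤ NR R P Q), f Q ≤ E.card := by
    have h1 : ∀ N ∈ range (n + 1), ∑ Q ∈ (E.filter (fun Q => (1 - ε₀) * P.card <
        (bigS R P Q).card ∧ (n : ℝ) ^ (1 / 2 + ε) ≤ NR R P Q)).filter
          (fun Q => NR R P Q = N), f Q ≤ Z / (1 - p) ^ I := by
      intro N hN
      by_cases hNN : (n : ℝ) ^ (1 / 2 + ε) ≤ N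
      · refine esm_cmp _ ((Pt (Fin n)).filter (fun Q => (∀ B ∈ Q, B.card ≤ T + 1) ∧
          (Q.card : ℝ) ≤ P.card + (n:ℝ) ^ ε ∧
          (1 - ε₀) * P.card < (bigS (RR ε T) P Q).card ∧ NR (RR ε T) P Q = N)) f
          (fun Q => (1 - p) ^ inn Q * w ^ ovl P Q * Z) ((1 - p) ^ I) _ hqI ?_ ?_ ?_ ?_
        · intro Q hQ
          simp only [Finset.mem_filter] at hQ ⊢
          obtain ⟨⟨hQE, hQ1, hQ2⟩, hQ3⟩ := hQ
          refine ⟨(hEm Q hQE).1, fun B hB => ((hexc2 Q hQE).2.2 B hB).trans (by omega), ?_,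
            hQ1, hQ3⟩
          rw [hPk, (hexc2 Q hQE).1]
          have : 0 ≤ (n:ℝ) ^ ε := by positivity
          linarith
        · intro Q _
          positivity
        · intro Q hQ
          have hQE : Q ∈ E := (Finset.mem_filter.1 (Finset.mem_filter.1 hQ).1).1
          rw [hinn Q hQE, mul_assoc]
          exact mul_le_mul_of_nonneg_left (hf2 Q) hqI.le
        · rw [← Finset.sum_mul]
          have hsml : Sml p C₁ ((n:ℝ) ^ ε) (KK T κ) n T P := by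
            refine ⟨hPt, fun C hC => (hPT C hC).trans (by omega), hK0, by linarith, ?_,
              (hgood P hP).small⟩
            have h2 := (hgood P hP).num2
            have h3 : (P.card : ℝ) * T ≤ (KK T κ + (n:ℝ) ^ ε) * T :=
              mul_le_mul_of_nonneg_right h2 (Nat.cast_nonneg _)
            have h4 : (n:ℝ) ^ ε * T ≤ n / 2 := by
              have h5 : (n:ℝ) ^ ε * T ≤ (n:ℝ) ^ ε * (n:ℝ) ^ (ε / 8) :=
                mul_le_mul_of_nonneg_left hTz (by positivity)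
              have h6 : 2 * ((n:ℝ) ^ ε * (n:ℝ) ^ (ε / 8)) ≤
                  (n:ℝ) ^ (ε / 8) * ((n:ℝ) ^ ε * (n:ℝ) ^ (ε / 8)) :=
                mul_le_mul_of_nonneg_right (by linarith) (by positivity)
              have h7 : (n:ℝ) ^ (ε / 8) * ((n:ℝ) ^ ε * (n:ℝ) ^ (ε / 8)) ≤ n := by
                rw [← Real.rpow_add hn0, ← Real.rpow_add hn0]
                calc (n:ℝ) ^ (ε / 8 + (ε + ε / 8)) ≤ (n:ℝ) ^ (1:ℝ) :=
                      Real.rpow_le_rpow_of_exponent_le hnr (by linarith)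
                  _ = n := Real.rpow_one _
              linarith
            linarith
          have h2 := hNI n T N th ((n:ℝ) ^ ε) (KK T κ) P (by omega) hwin hsml (by positivity) (by
            refine le_trans ?_ hNN
            rw [← Real.rpow_add hn0]
            exact Real.rpow_le_rpow_of_exponent_le hnr (by linarith)) hNN
          have h3 : Real.exp (-(N:ℝ)) ≤ 1 := by
            rw [Real.exp_le_one_iff]
            have : (0:ℝ) ≤ N := Nat.cast_nonneg _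
            linarith
          calc _ ≤ 1 * Z := mul_le_mul_of_nonneg_right (h2.trans h3) hZ0.le
            _ = (1 - p) ^ I * (Z / (1 - p) ^ I) := by field_simp
      · have h2 : (E.filter (fun Q => (1 - ε₀) * P.card <
            (bigS R P Q).card ∧ (n : ℝ) ^ (1 / 2 + ε) ≤ NR R P Q)).filter
            (fun Q => NR R P Q = N) = ∅ := by
          rw [Finset.filter_eq_empty_iff]
          intro Q hQ h3
          apply hNN
          rw [← h3]
          exact (Finset.mem_filter.1 hQ).2.2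
        rw [h2, Finset.sum_empty]
        positivity
    rw [← Finset.sum_fiberwise_of_maps_to (t := range (n + 1)) (g := fun Q => NR R P Q)
      (fun Q hQ => by
        have h2 := (hcru3 Q (hEm Q (Finset.mem_filter.1 hQ).1).1).2.2.2
        exact Finset.mem_range.2 (by omega))]
    refine (Finset.sum_le_sum h1).trans ?_
    rw [Finset.sum_const, card_range, nsmul_eq_mul]
    push_cast
    rw [← mul_div_assoc, div_le_iff₀ hqI]
    exact num3.trans hfm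
  -- case 3
  have S3 : ∑ Q ∈ E.filter (fun Q => ((NR R P Q : ℕ) : ℝ) ≤ (n : ℝ) ^ (1 / 2 + ε)), f Q ≤
      E.card := by
    have h1 : ∀ Q ∈ E.filter (fun Q => ((NR R P Q : ℕ) : ℝ) ≤ (n : ℝ) ^ (1 / 2 + ε)),
        f Q ≤ Z / (1 - p) ^ I := by
      intro Q hQ
      have hQE : Q ∈ E := (Finset.mem_filter.1 hQ).1
      rw [le_div_iff₀ hqI]
      have h2 := (hcru3 Q (hEm Q hQE).1).1
      rw [hinn Q hQE] at h2
      have h3 : w ^ ovl P Q * (1 - p) ^ I ≤ 1 := by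
        have h4 : (1 - p) ^ I = (1 - p) ^ ovl P Q * (1 - p) ^ (I - ovl P Q) := by
          rw [← pow_add]; congr 1; omega
        rw [h4, ← mul_assoc, ← mul_pow, mul_comm w, hwq, one_pow, one_mul]
        exact pow_le_one₀ hq0.le hq1
      calc f Q * (1 - p) ^ I ≤ (w ^ ovl P Q * Z) * (1 - p) ^ I :=
            mul_le_mul_of_nonneg_right (hf2 Q) hqI.le
        _ = (w ^ ovl P Q * (1 - p) ^ I) * Z := by ring
        _ ≤ 1 * Z := mul_le_mul_of_nonneg_right h3 hZ0.le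
        _ = Z := one_mul _
    have h2 : (((E.filter (fun Q => ((NR R P Q : ℕ) : ℝ) ≤ (n : ℝ) ^ (1 / 2 + ε))).card : ℕ) : ℝ) ≤
        ((n:ℝ) + 1) ^ (3 * ⌊(n : ℝ) ^ (1 / 2 + ε)⌋₊) := by
      obtain ⟨h3, -, -⟩ := hCRU n T R ⌊(n : ℝ) ^ (1 / 2 + ε)⌋₊ P hPt hPT hTR
      have h4 : (E.filter (fun Q => ((NR R P Q : ℕ) : ℝ) ≤ (n : ℝ) ^ (1 / 2 + ε))) ⊆
          (Pt (Fin n)).filter (fun Q => (∀ B ∈ Q, B.card ≤ T) ∧
            NR R P Q ≤ ⌊(n : ℝ) ^ (1 / 2 + ε)⌋₊) := by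
        intro Q hQ
        simp only [Finset.mem_filter] at hQ ⊢
        exact ⟨(hEm Q hQ.1).1, (hexc2 Q hQ.1).2.2, Nat.le_floor hQ.2⟩
      exact_mod_cast (Finset.card_le_card h4).trans h3
    refine (Finset.sum_le_card_nsmul _ _ _ h1).trans ?_
    rw [nsmul_eq_mul]
    refine (mul_le_mul_of_nonneg_right h2 (by positivity)).trans ?_
    rw [← mul_div_assoc, div_le_iff₀ hqI]
    exact (num4 _ (Nat.floor_le (by positivity))).trans hfm
  -- the sum
  have hspl := esm_split E f (fun Q => ((bigS R P Q).card : ℝ) ≤ (n : ℝ) ^ (1 - th + ε))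
    (fun Q => (n : ℝ) ^ (1 - th + ε) ≤ (bigS R P Q).card ∧
      ((bigS R P Q).card : ℝ) ≤ (1 - ε₀) * P.card)
    (fun Q => (1 - ε₀) * P.card < (bigS R P Q).card ∧ (n : ℝ) ^ (1 / 2 + ε) ≤ NR R P Q)
    (fun Q => ((NR R P Q : ℕ) : ℝ) ≤ (n : ℝ) ^ (1 / 2 + ε)) (fun Q _ => hf0 Q) (by
      intro Q _
      rcases le_total ((bigS R P Q).card : ℝ) ((n : ℝ) ^ (1 - th + ε)) with h | h
      · exact Or.inl h
      · rcases le_or_gt ((bigS R P Q).card : ℝ) ((1 - ε₀) * P.card) with h' | h'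
        · exact Or.inr (Or.inl ⟨h, h'⟩)
        · rcases le_total ((n : ℝ) ^ (1 / 2 + ε)) (NR R P Q) with h'' | h''
          · exact Or.inr (Or.inr (Or.inl ⟨h', h''⟩))
          · exact Or.inr (Or.inr (Or.inr h'')))
  have hfin : (Real.exp 1 * n) ^ (T + 1) * Real.exp (X + (n:ℝ) ^ (3 * ε)) + 3 ≤
      Real.exp (X + 2 * (n:ℝ) ^ (3 * ε)) := by
    have h1 : 1 ≤ Real.exp (X + (n:ℝ) ^ (3 * ε)) := Real.one_le_exp (by positivity)
    have h2 : Real.exp (X + 2 * (n:ℝ) ^ (3 * ε)) =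
        Real.exp ((n:ℝ) ^ (3 * ε)) * Real.exp (X + (n:ℝ) ^ (3 * ε)) := by
      rw [← Real.exp_add]; ring_nf
    rw [h2]
    have h3 := mul_le_mul_of_nonneg_right num1 (Real.exp_pos (X + (n:ℝ) ^ (3 * ε))).le
    linarith
  calc ∑ Q ∈ E, f Q ≤ _ := hspl
    _ ≤ E.card * ((Real.exp 1 * n) ^ (T + 1) * Real.exp (X + (n:ℝ) ^ (3 * ε))) + E.card + E.card +
        E.card := by linarith
    _ = E.card * ((Real.exp 1 * n) ^ (T + 1) * Real.exp (X + (n:ℝ) ^ (3 * ε)) + 3) := by ring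
    _ ≤ _ := mul_le_mul_of_nonneg_left hfin hE0.le

end Pool.Agent.Helper76.UX
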