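import Pool.Agent.Helper69.UX.StA

set_option autoImplicit false
set_option linter.unusedSectionVars false

/-!
Project UX, module JAN: Janson's inequality for the Laplace transform.
-/

namespace Pool.Agent.Helper76.UX

open Finset Filter Pool.Agent.Helper82.CN Pool.Agent.Helper11.PV Pool.Agent.Helper69.VX
  Pool.Agent.Helper69.UX

noncomputable section

section basic

variable {ι : Type} [Fintype ι] [DecidableEq ι]

/-- the indicator: all bits of `A` vanish -/
private def In (A : Finset ι) (ω : ι → Bool) : ℝ := if (∀ i ∈ A, ω i = false) then (1 : ℝ) else 0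

private theorem In_nonneg (A : Finset ι) (ω : ι → Bool) : 0 ≤ In A ω := by
  unfold In
  split_ifs
  · exact zero_le_one
  · exact le_refl _

private theorem In_anti (A : Finset ι) : Antitone (In A) := by
  intro ω ω' h
  unfold In
  by_cases h1 : ∀ i ∈ A, ω' i = false
  · have h2 : ∀ i ∈ A, ω i = false := by
      intro i hi
      have h3 := h i
      rw [h1 i hi] at h3
      exact le_bot_iff.1 h3
    rw [if_pos h1, if_pos h2]
  · rw [if_neg h1]
    split_ifs
    · exact zero_le_one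
    · exact le_refl _

private theorem In_mean (p : ℝ) (A : Finset ι) : EE p (In A) = (1 - p) ^ A.card := by
  have h1 : ∀ ω : ι → Bool, (∏ i, bw p (ω i)) * In A ω =
      ∏ i, (bw p (ω i) * (if i ∈ A then (if ω i = false then (1 : ℝ) else 0) else 1)) := by
    intro ω
    rw [Finset.prod_mul_distrib]
    congr 1
    unfold In
    by_cases h : ∀ i ∈ A, ω i = false
    · rw [if_pos h]
      symm
      refine Finset.prod_eq_one fun i _ => ?_
      by_cases hi : i ∈ A
      · rw [if_pos hi, if_pos (h i hi)]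
      · rw [if_neg hi]
    · rw [if_neg h]
      push Not at h
      obtain ⟨i, hi, hne⟩ := h
      symm
      refine Finset.prod_eq_zero (Finset.mem_univ i) ?_
      rw [if_pos hi, if_neg hne]
  unfold EE
  rw [Finset.sum_congr rfl fun ω _ => h1 ω]
  have h2 := Finset.prod_univ_sum (fun _ : ι => (Finset.univ : Finset Bool))
    (fun (i : ι) (b : Bool) => bw p b * (if i ∈ A then (if b = false then (1 : ℝ) else 0) else 1))
  rw [Fintype.piFinset_univ] at h2
  rw [← h2]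
  have h3 : ∀ i : ι, ∑ b : Bool, bw p b * (if i ∈ A then (if b = false then (1 : ℝ) else 0) else 1) =
      if i ∈ A then (1 - p) else 1 := by
    intro i
    by_cases hi : i ∈ A
    · simp [hi, bw]
    · simp [hi, bw]
  rw [Finset.prod_congr rfl fun i _ => h3 i, Finset.prod_ite_mem, Finset.univ_inter,
    Finset.prod_const]

/-- the bits of `A` are put to `false` -/
private def zo (A : Finset ι) (ω : ι → Bool) : ι → Bool := fun i => if i ∈ A then false else ω i

private theorem zo_mono (A : Finset ι) : Monotone (zo A) := by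
  intro ω ω' h i
  unfold zo
  by_cases hi : i ∈ A
  · rw [if_pos hi, if_pos hi]
  · rw [if_neg hi, if_neg hi]
    exact h i

private theorem zo_eq (A : Finset ι) (ω : ι → Bool) (h : ∀ i ∈ A, ω i = false) : zo A ω = ω := by
  funext i
  unfold zo
  by_cases hi : i ∈ A
  · rw [if_pos hi, h i hi]
  · rw [if_neg hi]

private theorem zo_congr (A : Finset ι) (ω ω' : ι → Bool) (h : ∀ i, i ∉ A → ω i = ω' i) :
    zo A ω = zo A ω' := by
  funext i
  unfold zo
  by_cases hi : i ∈ A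
  · rw [if_pos hi, if_pos hi]
  · rw [if_neg hi, if_neg hi, h i hi]

private theorem In_zo (A C : Finset ι) (ω : ι → Bool) : In C (zo A ω) = In (C \ A) ω := by
  unfold In
  have h : (∀ i ∈ C, zo A ω i = false) ↔ ∀ i ∈ C \ A, ω i = false := by
    constructor
    · intro h i hi
      obtain ⟨h1, h2⟩ := Finset.mem_sdiff.1 hi
      have h3 := h i h1
      unfold zo at h3
      rwa [if_neg h2] at h3
    · intro h i hi
      unfold zo
      by_cases h2 : i ∈ A
      · rw [if_pos h2]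
      · rw [if_neg h2]
        exact h i (Finset.mem_sdiff.2 ⟨hi, h2⟩)
  simp only [h]

private theorem In_congr (A : Finset ι) (ω ω' : ι → Bool) (h : ∀ i ∈ A, ω i = ω' i) :
    In A ω = In A ω' := by
  unfold In
  have h1 : (∀ i ∈ A, ω i = false) ↔ ∀ i ∈ A, ω' i = false := by
    constructor
    · intro h2 i hi
      rw [← h i hi]
      exact h2 i hi
    · intro h2 i hi
      rw [h i hi]
      exact h2 i hi
  simp only [h1]

end basic

section main

variable {ι σ : Type} [Fintype ι] [DecidableEq ι] [DecidableEq σ]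

/-- number of the sets all of whose bits vanish -/
private def YY (𝒮 : Finset σ) (B : σ → Finset ι) (ω : ι → Bool) : ℝ := ∑ S ∈ 𝒮, In (B S) ω

private theorem YY_nonneg (𝒮 : Finset σ) (B : σ → Finset ι) (ω : ι → Bool) : 0 ≤ YY 𝒮 B ω :=
  Finset.sum_nonneg fun _ _ => In_nonneg _ _

private theorem YY_anti (𝒮 : Finset σ) (B : σ → Finset ι) : Antitone (YY 𝒮 B) := by
  intro ω ω' h
  exact Finset.sum_le_sum fun S _ => In_anti (B S) h

/-- the key inequality -/
private theorem key (hHAR : StHAR) (p s : ℝ) (𝒮 : Finset σ) (B : σ → Finset ι) (h0 : 0 ≤ p)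
    (h1 : p ≤ 1) (hs : 0 ≤ s) (S : σ) :
    EE p (fun ω => Real.exp (-s * YY 𝒮 B ω)) * ((1 - p) ^ (B S).card -
      s * ∑ S' ∈ 𝒮.filter (fun S' => ¬ Disjoint (B S) (B S')), (1 - p) ^ (B S ∪ B S').card) ≤
    EE p (fun ω => In (B S) ω * Real.exp (-s * YY 𝒮 B ω)) := by
  set N₁ : Finset σ := 𝒮.filter (fun S' => ¬ Disjoint (B S) (B S')) with hN₁
  set N₂ : Finset σ := 𝒮.filter (fun S' => Disjoint (B S) (B S')) with hN₂
  have hsplit : ∀ ω, YY 𝒮 B ω = YY N₁ B ω + YY N₂ B ω := by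
    intro ω
    unfold YY
    rw [hN₁, hN₂, add_comm]
    exact (Finset.sum_filter_add_sum_filter_not 𝒮 (fun S' => Disjoint (B S) (B S'))
      (fun S' => In (B S') ω)).symm
  set F : (ι → Bool) → ℝ := fun ω => Real.exp (-s * YY N₁ B (zo (B S) ω)) with hF
  set G : (ι → Bool) → ℝ := fun ω => Real.exp (-s * YY N₂ B ω) with hG
  have hFm : Monotone F := by
    intro ω ω' h
    rw [hF]
    simp only
    rw [Real.exp_le_exp]
    have h2 : YY N₁ B (zo (B S) ω') ≤ YY N₁ B (zo (B S) ω) := YY_anti N₁ B (zo_mono (B S) h)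
    nlinarith
  have hGm : Monotone G := by
    intro ω ω' h
    rw [hG]
    simp only
    rw [Real.exp_le_exp]
    have h2 : YY N₂ B ω' ≤ YY N₂ B ω := YY_anti N₂ B h
    nlinarith
  have hmain : EE p (fun ω => In (B S) ω * Real.exp (-s * YY 𝒮 B ω)) =
      (1 - p) ^ (B S).card * EE p (fun ω => F ω * G ω) := by
    have e1 : (fun ω => In (B S) ω * Real.exp (-s * YY 𝒮 B ω)) =
        fun ω => In (B S) ω * (F ω * G ω) := by
      funext ω
      by_cases h : ∀ i ∈ B S, ω i = false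
      · rw [hF, hG]
        simp only
        rw [zo_eq (B S) ω h, hsplit, ← Real.exp_add]
        congr 2
        ring
      · have h2 : In (B S) ω = 0 := by
          unfold In
          rw [if_neg h]
        rw [h2, zero_mul, zero_mul]
    rw [e1, EE_indep p (fun i => i ∈ B S) (In (B S)) (fun ω => F ω * G ω), In_mean]
    · intro ω ω' h
      exact In_congr _ _ _ h
    · intro ω ω' h
      rw [hF, hG]
      simp only
      rw [zo_congr (B S) ω ω' h]
      congr 2
      congr 1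
      unfold YY
      refine Finset.sum_congr rfl fun S' hS' => ?_
      rw [hN₂, Finset.mem_filter] at hS'
      refine In_congr _ _ _ fun i hi => ?_
      exact h i fun hiS => (Finset.disjoint_left.1 hS'.2 hiS) hi
  have hHar := hHAR p ι F G h0 h1 (Or.inl ⟨hFm, hGm⟩)
  have hF0 : 0 ≤ EE p F := EE_nonneg h0 h1 fun ω => (Real.exp_pos _).le
  have hΨ0 : 0 ≤ EE p (fun ω => Real.exp (-s * YY 𝒮 B ω)) :=
    EE_nonneg h0 h1 fun ω => (Real.exp_pos _).le
  have hG1 : EE p (fun ω => Real.exp (-s * YY 𝒮 B ω)) ≤ EE p G := by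
    refine EE_mono h0 h1 fun ω => ?_
    rw [hG]
    simp only
    rw [Real.exp_le_exp]
    have h2 := YY_nonneg N₁ B ω
    rw [hsplit ω]
    nlinarith
  have hmean : EE p (fun ω => YY N₁ B (zo (B S) ω)) = ∑ S' ∈ N₁, (1 - p) ^ (B S' \ B S).card := by
    unfold YY
    have e2 : (fun ω : ι → Bool => ∑ S' ∈ N₁, In (B S') (zo (B S) ω)) =
        fun ω => ∑ S' ∈ N₁, In (B S' \ B S) ω := by
      funext ω
      exact Finset.sum_congr rfl fun S' _ => In_zo _ _ _
    rw [e2, EE_sum]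
    exact Finset.sum_congr rfl fun S' _ => In_mean p _
  have hF1 : 1 - s * ∑ S' ∈ N₁, (1 - p) ^ (B S' \ B S).card ≤ EE p F := by
    rw [← hmean, ← EE_mul_left]
    have e3 : (1 : ℝ) = EE p (fun _ : ι → Bool => (1 : ℝ)) := (EE_const p 1).symm
    rw [e3, ← EE_sub]
    refine EE_mono h0 h1 fun ω => ?_
    rw [hF]
    simp only
    have h2 := Real.add_one_le_exp (-s * YY N₁ B (zo (B S) ω))
    linarith
  have hP0 : (0 : ℝ) ≤ (1 - p) ^ (B S).card := pow_nonneg (by linarith) _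
  have hsum : (1 - p) ^ (B S).card * ∑ S' ∈ N₁, (1 - p) ^ (B S' \ B S).card =
      ∑ S' ∈ N₁, (1 - p) ^ (B S ∪ B S').card := by
    rw [Finset.mul_sum]
    refine Finset.sum_congr rfl fun S' _ => ?_
    rw [← pow_add]
    congr 1
    rw [add_comm, Finset.card_sdiff_add_card, Finset.union_comm]
  rw [hmain, ← hsum]
  have h3 : EE p (fun ω => Real.exp (-s * YY 𝒮 B ω)) *
      (1 - s * ∑ S' ∈ N₁, (1 - p) ^ (B S' \ B S).card) ≤ EE p (fun ω => F ω * G ω) := by
    calc EE p (fun ω => Real.exp (-s * YY 𝒮 B ω)) *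
        (1 - s * ∑ S' ∈ N₁, (1 - p) ^ (B S' \ B S).card)
        ≤ EE p (fun ω => Real.exp (-s * YY 𝒮 B ω)) * EE p F :=
          mul_le_mul_of_nonneg_left hF1 hΨ0
      _ = EE p F * EE p (fun ω => Real.exp (-s * YY 𝒮 B ω)) := mul_comm _ _
      _ ≤ EE p F * EE p G := mul_le_mul_of_nonneg_left hG1 hF0
      _ ≤ _ := hHar
  calc EE p (fun ω => Real.exp (-s * YY 𝒮 B ω)) * ((1 - p) ^ (B S).card -
        s * ((1 - p) ^ (B S).card * ∑ S' ∈ N₁, (1 - p) ^ (B S' \ B S).card))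
      = (1 - p) ^ (B S).card * (EE p (fun ω => Real.exp (-s * YY 𝒮 B ω)) *
        (1 - s * ∑ S' ∈ N₁, (1 - p) ^ (B S' \ B S).card)) := by ring
    _ ≤ _ := mul_le_mul_of_nonneg_left h3 hP0

/-- the Laplace transform -/
private def Ps (p : ℝ) (𝒮 : Finset σ) (B : σ → Finset ι) (s : ℝ) : ℝ :=
  EE p (fun ω => Real.exp (-s * YY 𝒮 B ω))

private theorem Ps_deriv (p : ℝ) (𝒮 : Finset σ) (B : σ → Finset ι) (s : ℝ) :
    HasDerivAt (Ps p 𝒮 B) (-∑ S ∈ 𝒮, EE p (fun ω => In (B S) ω * Real.exp (-s * YY 𝒮 B ω))) s := by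
  have h1 : -∑ S ∈ 𝒮, EE p (fun ω => In (B S) ω * Real.exp (-s * YY 𝒮 B ω)) =
      ∑ ω : ι → Bool, (∏ i, bw p (ω i)) * (Real.exp (-s * YY 𝒮 B ω) * (-YY 𝒮 B ω)) := by
    rw [← EE_sum]
    unfold EE
    rw [← Finset.sum_neg_distrib]
    refine Finset.sum_congr rfl fun ω _ => ?_
    have h2 : ∑ a ∈ 𝒮, In (B a) ω * Real.exp (-s * YY 𝒮 B ω) =
        YY 𝒮 B ω * Real.exp (-s * YY 𝒮 B ω) := by
      rw [← Finset.sum_mul]
      rfl
    simp only
    rw [h2]
    ring
  rw [h1]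
  unfold Ps EE
  refine HasDerivAt.fun_sum fun ω _ => ?_
  refine HasDerivAt.const_mul _ ?_
  refine HasDerivAt.exp ?_
  have h2 : HasDerivAt (fun s : ℝ => -s * YY 𝒮 B ω) (-1 * YY 𝒮 B ω) s :=
    ((hasDerivAt_id s).neg).mul_const _
  rwa [neg_one_mul] at h2

end main

theorem hJAN (hHAR : StHAR) : StJAN := by
  intro p s ι σ _ _ _ 𝒮 B h0 h1 hs _
  set μ : ℝ := ∑ S ∈ 𝒮, (1 - p) ^ (B S).card with hμ
  set Δ : ℝ := ∑ S ∈ 𝒮, ∑ S' ∈ 𝒮.filter (fun S' => ¬ Disjoint (B S) (B S')),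
    (1 - p) ^ (B S ∪ B S').card with hΔ
  change Ps p 𝒮 B s ≤ Real.exp (-s * μ + s ^ 2 / 2 * Δ)
  set g : ℝ → ℝ := fun s => Ps p 𝒮 B s * Real.exp (s * μ - s ^ 2 / 2 * Δ) with hg
  have hder : ∀ x : ℝ, HasDerivAt g
      ((-∑ S ∈ 𝒮, EE p (fun ω => In (B S) ω * Real.exp (-x * YY 𝒮 B ω))) *
        Real.exp (x * μ - x ^ 2 / 2 * Δ) +
        Ps p 𝒮 B x * (Real.exp (x * μ - x ^ 2 / 2 * Δ) * (μ - x * Δ))) x := by
    intro x
    refine HasDerivAt.mul (Ps_deriv p 𝒮 B x) ?_
    refine HasDerivAt.exp ?_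
    have h2 : HasDerivAt (fun x : ℝ => x * μ) (1 * μ) x := (hasDerivAt_id x).mul_const μ
    have h3 : HasDerivAt (fun x : ℝ => x ^ 2 / 2 * Δ) (((2 : ℕ) * x ^ (2 - 1)) / 2 * Δ) x :=
      ((hasDerivAt_pow 2 x).div_const 2).mul_const Δ
    have h4 := h2.sub h3
    have h5 : 1 * μ - ((2 : ℕ) * x ^ (2 - 1)) / 2 * Δ = μ - x * Δ := by
      norm_num
    rwa [h5] at h4
  have hanti : AntitoneOn g (Set.Ici 0) := by
    refine antitoneOn_of_deriv_nonpos (convex_Ici 0) ?_ ?_ ?_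
    · exact fun x _ => (hder x).continuousAt.continuousWithinAt
    · exact fun x _ => (hder x).differentiableAt.differentiableWithinAt
    · intro x hx
      rw [interior_Ici, Set.mem_Ioi] at hx
      rw [(hder x).deriv]
      have h2 : Ps p 𝒮 B x * (μ - x * Δ) ≤
          ∑ S ∈ 𝒮, EE p (fun ω => In (B S) ω * Real.exp (-x * YY 𝒮 B ω)) := by
        rw [hμ, hΔ, Finset.mul_sum, ← Finset.sum_sub_distrib, Finset.mul_sum]
        exact Finset.sum_le_sum fun S _ => key hHAR p x 𝒮 B h0 h1 hx.le S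
      have h3 := Real.exp_pos (x * μ - x ^ 2 / 2 * Δ)
      have h4 : (-∑ S ∈ 𝒮, EE p (fun ω => In (B S) ω * Real.exp (-x * YY 𝒮 B ω))) *
          Real.exp (x * μ - x ^ 2 / 2 * Δ) +
          Ps p 𝒮 B x * (Real.exp (x * μ - x ^ 2 / 2 * Δ) * (μ - x * Δ)) =
          (Ps p 𝒮 B x * (μ - x * Δ) -
            ∑ S ∈ 𝒮, EE p (fun ω => In (B S) ω * Real.exp (-x * YY 𝒮 B ω))) *
            Real.exp (x * μ - x ^ 2 / 2 * Δ) := by ring
      rw [h4]
      exact mul_nonpos_of_nonpos_of_nonneg (sub_nonpos.2 h2) h3.le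
  have h5 := hanti (Set.mem_Ici.2 (le_refl (0 : ℝ))) (Set.mem_Ici.2 hs) hs
  have h6 : g 0 = 1 := by
    rw [hg]
    simp only
    unfold Ps
    simp only [neg_zero, zero_mul, Real.exp_zero, EE_const]
    norm_num
  rw [h6] at h5
  have h7 : Ps p 𝒮 B s * Real.exp (s * μ - s ^ 2 / 2 * Δ) ≤ 1 := h5
  have h8 : Real.exp (-s * μ + s ^ 2 / 2 * Δ) * Real.exp (s * μ - s ^ 2 / 2 * Δ) = 1 := by
    rw [← Real.exp_add]
    have : -s * μ + s ^ 2 / 2 * Δ + (s * μ - s ^ 2 / 2 * Δ) = 0 := by ring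
    rw [this, Real.exp_zero]
  have h9 := Real.exp_pos (s * μ - s ^ 2 / 2 * Δ)
  refine le_of_mul_le_mul_right ?_ h9
  rw [h8]
  exact h7

end

end Pool.Agent.Helper76.UX
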